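import Mathlib
import Pool.Agent.K3h62.HS.Bridge

/-!
# Hilbert–Schmidt Hankel operators with conjugate holomorphic symbols on bounded Reinhardt domains

Let `n ≥ 2`, let `Ω ⊂ ℂⁿ` be a bounded Reinhardt domain (no convexity, pseudoconvexity or
completeness is assumed) and let `f` be holomorphic on `Ω`. If the Hankel operator `H` with the
symbol `conj f` is Hilbert–Schmidt (it is densely defined and extends to a Hilbert–Schmidt operator
on the Bergman space), then `f` is constant and `H = 0`. So the answer to Q1 is no.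

Definitions (file `Pool/Agent/K3h62/HS/Defs.lean`; functions are functions on `ℂⁿ` of which only the
values on `Ω` matter): `leb Ω` is Lebesgue measure on `Ω`, `MemL2 Ω g` means `g ∈ L²(Ω)`, `ip`, `nrm`
are the inner product and the norm of `L²(Ω)`, `MemBergman Ω g` means `g ∈ A²(Ω)`, `IsProj Ω u p`
means `p = P u`, `HankelDom Ω φ g` means `g ∈ A²(Ω)` and `φ g ∈ L²(Ω)`, `IsHankel Ω φ g v` means that
`g` is in this domain and `v = (I - P)(φ g)`, `HankelHS Ω φ` means that the domain is dense in `A²(Ω)`
and that there is a bounded operator `T : A²(Ω) → L²(Ω)` extending the Hankel operator with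
`∑ ‖T e_k‖² < ∞` for an orthonormal basis `(e_k)` of `A²(Ω)`.

Proof. Let `c(α) ∈ (0, ∞]` be the square of the `L²` norm of the Laurent monomial `z^α` and let `C` be
the coefficient of `z^β` in the Laurent expansion of `f`. Testing `T` against functions with compact
support in `Ω` minus the coordinate hyperplanes, which are orthogonal to `A²(Ω)`, one finds, for all
`α` with `c(α) < ∞`,
`|C|² (c(α+β)/c(α) - c(α)/c(α-β)) ≤ ‖T z^α‖² / c(α)`,
in particular `c(α+β) < ∞` if `C ≠ 0`. (If `c(α) < ∞` then `z^α` is holomorphic on `Ω`.) The sum over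
the `α` of a line `α₀ + ℤ β` telescopes; it is at least `|C|² (M - m)` for any numbers
`inf |z^β|² < m < M < sup |z^β|²`. If `β ≠ 0` then infinitely many such lines contain an index
`α₀ ≥ 0`, and `c(α₀) < ∞` as `Ω` is bounded. So `C = 0` for all `β ≠ 0`.
-/

set_option autoImplicit false

open scoped ComplexConjugate

namespace Pool.Agent.Results.MP_dc9318_an.NoHilbertSchmidt

open Pool.Agent.K3h62.HS

/-- Let `n ≥ 2`, let `Ω ⊂ ℂⁿ` be a bounded Reinhardt domain and `f` holomorphic on `Ω`. If the Hankel
operator with the symbol `conj f` is Hilbert–Schmidt, then `f` is constant and the operator is zero. -/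
theorem result (n : ℕ) (hn : 2 ≤ n) (Ω : Set (Fin n → ℂ)) (hΩ : IsReinhardtDomain Ω)
    (hb : Bornology.IsBounded Ω) (f : (Fin n → ℂ) → ℂ) (hf : DifferentiableOn ℂ f Ω)
    (hHS : HankelHS Ω fun z => conj (f z)) :
    (∃ C : ℂ, ∀ z ∈ Ω, f z = C) ∧
      ∀ g v, IsHankel Ω (fun z => conj (f z)) g v → ∀ᵐ z ∂(leb Ω), v z = 0 :=
  main hn hΩ hb hf hHS

end Pool.Agent.Results.MP_dc9318_an.NoHilbertSchmidt
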